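import Pool.Agent.Helper50.Tm.Goals

/-!
# Project TAME (MP_f619a5_ag), packet CHART: affine charts of a smooth scheme over a local ring
-/

set_option autoImplicit false

open CategoryTheory AlgebraicGeometry Limits TensorProduct MonoidalCategory
open scoped Obj

namespace Pool.Agent.Helper45.Tm

open Pool.Agent.Helper50.Tm
open Pool.Agent.Helper40.Nm (specOver homGroup specialFibre)

theorem gCHART : Pool.Agent.Helper50.Tm.CHART := by
  intro S _ _ G hsm x
  obtain ⟨U, hU, hxU, -⟩ := exists_isAffineOpen_mem_and_subset (X := G.left) (x := x) (U := ⊤)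
    trivial
  set φ : CommRingCat.of S ⟶ Γ(G.left, U) := Spec.preimage (hU.fromSpec ≫ G.hom) with hφ
  have hmap : Spec.map φ = hU.fromSpec ≫ G.hom := Spec.map_preimage _
  let alg : Algebra S Γ(G.left, U) := φ.hom.toAlgebra
  have halg : CommRingCat.ofHom (algebraMap S Γ(G.left, U)) = φ := rfl
  let j : Pts G Γ(G.left, U) := Over.homMk (U := SpecA S Γ(G.left, U)) (V := G) hU.fromSpec (by
    change _ = Spec.map (CommRingCat.ofHom (algebraMap S Γ(G.left, U)))
    rw [halg, hmap])
  have hj : j.left = hU.fromSpec := rfl
  have hrange : Set.range j.left = (U : Set G.left) := by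
    rw [hj]
    exact hU.range_fromSpec
  refine ⟨Γ(G.left, U), inferInstance, alg, j, ?_, ?_, ?_, ?_, ?_⟩
  · have h1 : Smooth (Spec.map φ) := by
      rw [hmap]
      infer_instance
    rw [HasRingHomProperty.Spec_iff (P := @Smooth)] at h1
    exact RingHom.smooth_algebraMap.mp h1
  · rw [hj]
    infer_instance
  · rw [hrange]
    exact hxU
  · intro s hs
    rw [hrange] at hs
    have h1 : s.left ⁻¹ᵁ U = ⊤ := by
      exact IsLocalRing.closed_point_mem_iff.mp hs
    have h2 : Set.range s.left ⊆ Set.range hU.fromSpec := by
      rw [← hj, hrange]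
      rintro _ ⟨y, rfl⟩
      have : y ∈ s.left ⁻¹ᵁ U := by
        rw [h1]
        trivial
      exact this
    have h3 := IsOpenImmersion.lift_fac hU.fromSpec s.left h2
    set g := IsOpenImmersion.lift hU.fromSpec s.left h2 with hg
    set γ : Γ(G.left, U) ⟶ CommRingCat.of S := Spec.preimage g with hγ
    have h4 : Spec.map γ = g := Spec.map_preimage _
    have h5 : φ ≫ γ = CommRingCat.ofHom (algebraMap S S) := by
      apply Spec.map_injective
      rw [Spec.map_comp, h4, hmap, ← Category.assoc, h3]
      exact Over.w s
    let ψ : Γ(G.left, U) →ₐ[S] S :=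
      { γ.hom with
        commutes' := fun r => by
          have := congrArg (fun f => f.hom r) h5
          exact this }
    refine ⟨ψ, ?_⟩
    apply Over.OverMorphism.ext
    rw [Pts.map_left, hj]
    have h6 : CommRingCat.ofHom ψ.toRingHom = γ := by
      ext r
      rfl
    rw [h6, h4, h3]
  · intro A _ _ ψ ψ' h
    have h1 := congrArg (fun z => z.left) h
    simp only [Pts.map_left] at h1
    rw [hj] at h1
    have h2 := (cancel_mono hU.fromSpec).1 h1
    have h3 := Spec.map_injective h2
    ext r
    exact congrArg (fun f => f.hom r) h3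

end Pool.Agent.Helper45.Tm
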